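import Mathlib
import Pool.Agent.H380BT.Vertex

/-!
# Tails of Brieskorn homology spheres attached at any of the three vertices, up to Q**-equivalence

For integers `p`, `q`, `r` consider the relators `b_1^p b_2^(-q)`, `b_1^p (b_1 b_2)^(-r)` and one of the
relators `S b_1⁻¹`, `S b_2⁻¹`, `S (b_1 b_2)⁻¹`. The question is the case of `S b_1⁻¹` and
`(p, q, r) = (3, 5, 2)`. We determine, for each of the three ways to attach a tail with
`|p q - p r - q r| = 1`, for which `m` the generators `b_1`, `b_2` and the last two relators can be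
removed by Q**-transformations for all presentations and all `S` of order `m`.
-/

set_option autoImplicit false

namespace Pool.Agent.Results.MP_7840f5_gt.AllVertices

open Pool.Agent.H380BT

/-- The words `b_1`, `b_2`, `b_1 b_2`. -/
def vertexWord (g : ℕ) : Fin 3 → FreeGroup (Fin (g + 2)) :=
  let b₁ : FreeGroup (Fin (g + 2)) := FreeGroup.of (Fin.natAdd g 0)
  let b₂ : FreeGroup (Fin (g + 2)) := FreeGroup.of (Fin.natAdd g 1)
  ![b₁, b₂, b₁ * b₂]

/-- `⟨a_1, ..., a_g, b_1, b_2 | R_1, ..., R_h, S v⁻¹, b_1^p b_2^(-q), b_1^p (b_1 b_2)^(-r)⟩` with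
`v = b_1`, `b_2`, `b_1 b_2` for `i = 0, 1, 2`. -/
def presV (i : Fin 3) (p q r : ℤ) {g h : ℕ} (R : Fin h → FreeGroup (Fin g))
    (S : FreeGroup (Fin g)) : Pres where
  g := g + 2
  h := h + 3
  rel :=
    let b₁ : FreeGroup (Fin (g + 2)) := FreeGroup.of (Fin.natAdd g 0)
    let b₂ : FreeGroup (Fin (g + 2)) := FreeGroup.of (Fin.natAdd g 1)
    Fin.append (fun j => FreeGroup.map (Fin.castAdd 2) (R j))
      ![FreeGroup.map (Fin.castAdd 2) S * (vertexWord g i)⁻¹,
        b₁ ^ p * b₂ ^ (-q),
        b₁ ^ p * (b₁ * b₂) ^ (-r)]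

/-- the exponents of the tail at `b_1` which is equivalent to the tail at the vertex `i` -/
def expo (i : Fin 3) (p q r : ℤ) : ℤ × ℤ × ℤ := ![(p, q, r), (q, p, r), (r, -p, q)] i

theorem presV_equiv (i : Fin 3) (p q r : ℤ) {g h : ℕ} (R : Fin h → FreeGroup (Fin g))
    (S : FreeGroup (Fin g)) :
    QEquiv (presV i p q r R S)
      (presP (expo i p q r).1 (expo i p q r).2.1 (expo i p q r).2.2 R S) := by
  fin_cases i
  · exact Relation.ReflTransGen.refl
  · exact second R p q r S
  · exact third R p q r S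

theorem expo_e (i : Fin 3) (p q r : ℤ) :
    (expo i p q r).1 * (expo i p q r).2.1 - (expo i p q r).1 * (expo i p q r).2.2 -
      (expo i p q r).2.1 * (expo i p q r).2.2 = p * q - p * r - q * r := by
  fin_cases i <;> simp [expo] <;> ring

theorem expo_1 (i : Fin 3) (p q r : ℤ) : (expo i p q r).1 = ![p, q, r] i := by
  fin_cases i <;> simp [expo]

theorem expo_2 (i : Fin 3) (p q r : ℤ) : |(expo i p q r).2.1| = |![q, p, p] i| := by
  fin_cases i <;> simp [expo]

theorem expo_3 (i : Fin 3) (p q r : ℤ) : (expo i p q r).2.2 = ![r, r, q] i := by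
  fin_cases i <;> simp [expo]

theorem expo_cop (i : Fin 3) (p q r : ℤ) (h : IsCoprime (![q, p, p] i) (![r, r, q] i)) :
    IsCoprime (expo i p q r).2.1 (expo i p q r).2.2 := by
  fin_cases i
  · simpa [expo] using h
  · simpa [expo] using h
  · have h' : IsCoprime p q := by simpa using h
    have h2 := h'.neg_left
    simpa [expo] using h2

/-- **Main theorem.** Let `v = b_1`, `b_2`, `b_1 b_2`, let `t = p`, `q`, `r` be the exponent belonging
to `v` and `t'`, `t''` the two other exponents.

(A) Let `t'`, `t''` be coprime, `R_1, ..., R_h` and `S` elements of the free group on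
`a_1, ..., a_g` and `m` the order of the image of `S` in `G = ⟨a_1, ..., a_g | R_1, ..., R_h⟩`, with
`m = 0` if it is infinite.  If `m` is coprime to `t`, or `|t'| = 1`, or `|t''| = 1`, then
`⟨a_1, ..., a_g, b_1, b_2 | R_1, ..., R_h, S v⁻¹, b_1^p b_2^(-q), b_1^p (b_1 b_2)^(-r)⟩` is Q**-equivalent
to `⟨a_1, ..., a_g | R_1, ..., R_h, S^e⟩` with `e = p q - p r - q r`, and if `e ≡ ±1 mod m`, it is
Q**-equivalent to `⟨a_1, ..., a_g | R_1, ..., R_h, S⟩`.

(B) Let `p q - p r - q r = ±1` and `m` a natural number.  The two presentations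
`⟨a_1, ..., a_g, b_1, b_2 | R_1, ..., R_h, S v⁻¹, b_1^p b_2^(-q), b_1^p (b_1 b_2)^(-r)⟩` and
`⟨a_1, ..., a_g | R_1, ..., R_h, S⟩` are Q**-equivalent for all `g`, `h`, `R_1, ..., R_h` and all `S` whose
image in `G` has order `m` (infinite order, if `m = 0`) if and only if `m` is coprime to `t`, or
`|t'| = 1`, or `|t''| = 1`.

(C) In particular, for the binary icosahedral tail `(p, q, r) = (3, 5, 2)` attached by `S = b_1`, by
`S = b_2` or by `S = b_1 b_2`, the two presentations are always Q**-equivalent if the order `m` of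
`S` is not divisible by `3`, by `5`, or by `2`, respectively, and not always otherwise.  The first of the
three is the question. -/
theorem result :
    (∀ (i : Fin 3) (p q r : ℤ), IsCoprime (![q, p, p] i) (![r, r, q] i) →
      ∀ (g h : ℕ) (R : Fin h → FreeGroup (Fin g)) (S : FreeGroup (Fin g)),
      (IsCoprime (orderOf (PresentedGroup.mk (Set.range R) S) : ℤ) (![p, q, r] i) ∨
        |![q, p, p] i| = 1 ∨ |![r, r, q] i| = 1) →
        QEquiv (presV i p q r R S) (presQ R (S ^ (p * q - p * r - q * r))) ∧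
        QEquiv (presQ R (S ^ (p * q - p * r - q * r))) (presV i p q r R S) ∧
        ((orderOf (PresentedGroup.mk (Set.range R) S) : ℤ) ∣ (p * q - p * r - q * r) - 1 ∨
          (orderOf (PresentedGroup.mk (Set.range R) S) : ℤ) ∣ (p * q - p * r - q * r) + 1 →
            QEquiv (presV i p q r R S) (presQ R S) ∧ QEquiv (presQ R S) (presV i p q r R S))) ∧
    (∀ (i : Fin 3) (p q r : ℤ), |p * q - p * r - q * r| = 1 → ∀ m : ℕ,
      (∀ (g h : ℕ) (R : Fin h → FreeGroup (Fin g)) (S : FreeGroup (Fin g)),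
        orderOf (PresentedGroup.mk (Set.range R) S) = m →
          QEquiv (presV i p q r R S) (presQ R S)) ↔
      (IsCoprime (m : ℤ) (![p, q, r] i) ∨ |![q, p, p] i| = 1 ∨ |![r, r, q] i| = 1)) ∧
    ∀ (i : Fin 3) (m : ℕ),
      (∀ (g h : ℕ) (R : Fin h → FreeGroup (Fin g)) (S : FreeGroup (Fin g)),
        orderOf (PresentedGroup.mk (Set.range R) S) = m →
          QEquiv (presV i 3 5 2 R S) (presQ R S)) ↔
      ¬ (![3, 5, 2] : Fin 3 → ℕ) i ∣ m := by
  obtain ⟨hA, hB⟩ := mainThm
  have hB' : ∀ (i : Fin 3) (p q r : ℤ), |p * q - p * r - q * r| = 1 → ∀ m : ℕ,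
      (∀ (g h : ℕ) (R : Fin h → FreeGroup (Fin g)) (S : FreeGroup (Fin g)),
        orderOf (PresentedGroup.mk (Set.range R) S) = m →
          QEquiv (presV i p q r R S) (presQ R S)) ↔
      (IsCoprime (m : ℤ) (![p, q, r] i) ∨ |![q, p, p] i| = 1 ∨ |![r, r, q] i| = 1) := by
    intro i p q r he m
    have h1 := hB (expo i p q r).1 (expo i p q r).2.1 (expo i p q r).2.2
      (by rw [expo_e]; exact he) m
    rw [expo_1, expo_2, expo_3] at h1
    rw [← h1]
    constructor
    · intro H g h R S hS
      have h2 := (presV_equiv i p q r R S).symm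
      rw [expo_1, expo_3] at h2
      exact Relation.ReflTransGen.trans h2 (H g h R S hS)
    · intro H g h R S hS
      have h2 := presV_equiv i p q r R S
      rw [expo_1, expo_3] at h2
      exact Relation.ReflTransGen.trans h2 (H g h R S hS)
  refine ⟨?_, hB', ?_⟩
  · intro i p q r hcop g h R S hc
    have h1 := hA (expo i p q r).1 (expo i p q r).2.1 (expo i p q r).2.2
      (expo_cop i p q r hcop) g h R S (by rw [expo_1, expo_2, expo_3]; exact hc)
    rw [expo_e] at h1
    have h2 := presV_equiv i p q r R S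
    refine ⟨Relation.ReflTransGen.trans h2 h1.1, Relation.ReflTransGen.trans h1.2.1 h2.symm,
      fun he => ?_⟩
    have h3 := h1.2.2 he
    exact ⟨Relation.ReflTransGen.trans h2 h3.1, Relation.ReflTransGen.trans h3.2 h2.symm⟩
  · intro i m
    rw [hB' i 3 5 2 (by norm_num) m]
    have key : ∀ n : ℕ, n.Prime → (IsCoprime (m : ℤ) (n : ℤ) ↔ ¬ n ∣ m) := by
      intro n hn
      rw [Nat.isCoprime_iff_coprime, Nat.coprime_comm, hn.coprime_iff_not_dvd]
    fin_cases i
    · have := key 3 (by norm_num)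
      simpa using this
    · have := key 5 (by norm_num)
      simpa using this
    · have := key 2 (by norm_num)
      simpa using this

end Pool.Agent.Results.MP_7840f5_gt.AllVertices
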